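import Pool.Agent.N990.RU.Stm

/-!
# Project RU (helper990), part CSI (helper51): the spin wave inequality with edge dependent couplings

Adapted from `Pool/Agent/N399/RT/CSI.lean` (helper399).
-/

set_option autoImplicit false

open MeasureTheory
open Pool.Agent.N988.EA

namespace Pool.Agent.N51.RU

open Pool.Agent.N990.RU

noncomputable section

theorem cs_coe (x : ℝ) : cs (x : Ang) = Real.cos x := rfl

theorem cs_add_sub (x : Ang) (u : ℝ) :
    cs (x + (u : Ang)) + cs (x - (u : Ang)) - 2 * cs x = 2 * cs x * (Real.cos u - 1) := by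
  induction x using QuotientAddGroup.induction_on with
  | H x =>
    change cs (((x : ℝ) : Ang) + (u : Ang)) + cs (((x : ℝ) : Ang) - (u : Ang)) -
      2 * cs ((x : ℝ) : Ang) = 2 * cs ((x : ℝ) : Ang) * (Real.cos u - 1)
    rw [← AddCircle.coe_add, ← AddCircle.coe_sub, cs_coe, cs_coe, cs_coe, Real.cos_add,
      Real.cos_sub]
    ring

theorem abs_cs_le (x : Ang) : |cs x| ≤ 1 := by
  induction x using QuotientAddGroup.induction_on with
  | H x => exact Real.abs_cos_le_one x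

theorem term_ge (β : ℝ) (x : Ang) (u : ℝ) :
    -(|β| * u ^ 2) ≤ β * (cs (x + (u : Ang)) + cs (x - (u : Ang)) - 2 * cs x) := by
  rw [cs_add_sub]
  have h1 := Real.one_sub_sq_div_two_le_cos (x := u)
  have h2 := Real.cos_le_one u
  have h3 := abs_cs_le x
  have h4 : |β * (2 * cs x * (Real.cos u - 1))| ≤ |β| * u ^ 2 := by
    rw [abs_mul, abs_mul, abs_mul, abs_of_nonneg (by norm_num : (0 : ℝ) ≤ 2),
      abs_of_nonpos (by linarith : Real.cos u - 1 ≤ 0)]
    have h5 : 2 * |cs x| * -(Real.cos u - 1) ≤ u ^ 2 := by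
      have h6 : |cs x| * -(Real.cos u - 1) ≤ 1 * -(Real.cos u - 1) := by
        gcongr
        linarith
      linarith
    gcongr
  exact (abs_le.1 h4).1

/-- the shift -/
def sh {n : ℕ} (φ : Pt 2 (n + 1) → ℝ) (s : ℝ) : Vert 2 (n + 1) → Ang :=
  fun x => ((s * φ (Sum.inr x) : ℝ) : Ang)

theorem elim_add {n : ℕ} (φ : Pt 2 (n + 1) → ℝ) (hφ : ∀ t : Bool, φ (Sum.inl t) = 0) (s : ℝ)
    (τ : Bool → Ang) (σ : Vert 2 (n + 1) → Ang) (y : Pt 2 (n + 1)) :
    (Sum.elim τ (sh φ s + σ) : Pt 2 (n + 1) → Ang) y =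
      (Sum.elim τ σ : Pt 2 (n + 1) → Ang) y + ((s * φ y : ℝ) : Ang) := by
  rcases y with t | x
  · simp [hφ]
  · simp [sh, add_comm]

/-- the total strength -/
def St {n : ℕ} (J : Cpl (n + 1)) : ℝ := (∑ e, |(J e).1|) / 4 ^ n

theorem act_ge {n : ℕ} (φ : Pt 2 (n + 1) → ℝ) (hφ : ∀ t : Bool, φ (Sum.inl t) = 0)
    (hE : ∀ e : Edge 2 (n + 1), (φ (bd (n + 1) e false) - φ (bd (n + 1) e true)) ^ 2 ≤ 1 / 4 ^ n)
    (J : Cpl (n + 1)) (s : ℝ) (τ : Bool → Ang) (σ : Vert 2 (n + 1) → Ang) :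
    -(St J * s ^ 2) ≤ act (n + 1) J (Sum.elim τ (sh φ s + σ)) +
      act (n + 1) J (Sum.elim τ (sh φ (-s) + σ)) - 2 * act (n + 1) J (Sum.elim τ σ) := by
  have h1 : act (n + 1) J (Sum.elim τ (sh φ s + σ)) +
      act (n + 1) J (Sum.elim τ (sh φ (-s) + σ)) - 2 * act (n + 1) J (Sum.elim τ σ) =
      ∑ e : Edge 2 (n + 1), (J e).1 * (cs (((Sum.elim τ σ : Pt 2 (n + 1) → Ang)
          (bd (n + 1) e false) -
          (Sum.elim τ σ : Pt 2 (n + 1) → Ang) (bd (n + 1) e true) - (J e).2) +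
          ((s * (φ (bd (n + 1) e false) - φ (bd (n + 1) e true)) : ℝ) : Ang)) +
        cs (((Sum.elim τ σ : Pt 2 (n + 1) → Ang) (bd (n + 1) e false) -
          (Sum.elim τ σ : Pt 2 (n + 1) → Ang) (bd (n + 1) e true) - (J e).2) -
          ((s * (φ (bd (n + 1) e false) - φ (bd (n + 1) e true)) : ℝ) : Ang)) -
        2 * cs ((Sum.elim τ σ : Pt 2 (n + 1) → Ang) (bd (n + 1) e false) -
          (Sum.elim τ σ : Pt 2 (n + 1) → Ang) (bd (n + 1) e true) - (J e).2)) := by
    unfold Pool.Agent.N990.RU.act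
    have h2 : ∀ e : Edge 2 (n + 1), (Sum.elim τ (sh φ s + σ) : Pt 2 (n + 1) → Ang)
        (bd (n + 1) e false) - (Sum.elim τ (sh φ s + σ) : Pt 2 (n + 1) → Ang)
        (bd (n + 1) e true) - (J e).2 =
        ((Sum.elim τ σ : Pt 2 (n + 1) → Ang) (bd (n + 1) e false) -
          (Sum.elim τ σ : Pt 2 (n + 1) → Ang) (bd (n + 1) e true) - (J e).2) +
          ((s * (φ (bd (n + 1) e false) - φ (bd (n + 1) e true)) : ℝ) : Ang) := by
      intro e
      rw [elim_add φ hφ, elim_add φ hφ, mul_sub, AddCircle.coe_sub]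
      abel
    have h3 : ∀ e : Edge 2 (n + 1), (Sum.elim τ (sh φ (-s) + σ) : Pt 2 (n + 1) → Ang)
        (bd (n + 1) e false) - (Sum.elim τ (sh φ (-s) + σ) : Pt 2 (n + 1) → Ang)
        (bd (n + 1) e true) - (J e).2 =
        ((Sum.elim τ σ : Pt 2 (n + 1) → Ang) (bd (n + 1) e false) -
          (Sum.elim τ σ : Pt 2 (n + 1) → Ang) (bd (n + 1) e true) - (J e).2) -
          ((s * (φ (bd (n + 1) e false) - φ (bd (n + 1) e true)) : ℝ) : Ang) := by
      intro e
      rw [elim_add φ hφ, elim_add φ hφ, mul_sub, AddCircle.coe_sub, neg_mul, neg_mul,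
        AddCircle.coe_neg, AddCircle.coe_neg]
      abel
    simp only [h2, h3]
    rw [Finset.mul_sum, ← Finset.sum_add_distrib, ← Finset.sum_sub_distrib]
    refine Finset.sum_congr rfl fun e _ => ?_
    ring
  rw [h1]
  have h4 : -(St J * s ^ 2) = ∑ e : Edge 2 (n + 1), -(|(J e).1| * (s ^ 2 * (1 / 4 ^ n))) := by
    unfold St
    rw [Finset.sum_neg_distrib, ← Finset.sum_mul]
    ring
  rw [h4]
  refine Finset.sum_le_sum fun e _ => ?_
  refine le_trans ?_ (term_ge (J e).1 _ _)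
  rw [neg_le_neg_iff, mul_pow]
  have h5 := hE e
  have h6 : s ^ 2 * (φ (bd (n + 1) e false) - φ (bd (n + 1) e true)) ^ 2 ≤ s ^ 2 * (1 / 4 ^ n) :=
    mul_le_mul_of_nonneg_left h5 (sq_nonneg s)
  exact mul_le_mul_of_nonneg_left h6 (abs_nonneg _)

/-- the pointwise inequality -/
theorem point (a b c r t : ℝ) (h : -(2 * r) ≤ a + b - 2 * c) :
    0 ≤ Real.exp a * (t * t) + -(2 * (Real.exp (-r) * Real.exp c)) * t + Real.exp b := by
  have h1 : Real.exp (-r) * Real.exp c ≤ Real.exp (a / 2) * Real.exp (b / 2) := by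
    rw [← Real.exp_add, ← Real.exp_add]
    apply Real.exp_le_exp.2
    linarith
  have h2 : Real.exp a = Real.exp (a / 2) * Real.exp (a / 2) := by
    rw [← Real.exp_add]; congr 1; ring
  have h3 : Real.exp b = Real.exp (b / 2) * Real.exp (b / 2) := by
    rw [← Real.exp_add]; congr 1; ring
  have h4 : 0 < Real.exp (-r) * Real.exp c := by positivity
  rcases le_total 0 t with ht | ht
  · rw [h2, h3]
    nlinarith [sq_nonneg (Real.exp (a / 2) * t - Real.exp (b / 2)),
      mul_le_mul_of_nonneg_right h1 ht]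
  · have h5 : 0 ≤ Real.exp a * (t * t) := by
      have := mul_self_nonneg t
      positivity
    have h6 : 0 < Real.exp b := Real.exp_pos b
    nlinarith [mul_nonneg_of_nonpos_of_nonpos (neg_nonpos.2 h4.le) ht]

/-! ### integrals -/

section

variable {n : ℕ} (h1 : S_BAS) (J : Cpl (n + 1)) (τ : Bool → Ang)

/-- the density -/
def w (J : Cpl (n + 1)) (τ : Bool → Ang) (σ : Vert 2 (n + 1) → Ang) : ℝ :=
  Real.exp (Pool.Agent.N990.RU.act (n + 1) J (Sum.elim τ σ))

include h1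

theorem w_cont : Continuous (w J τ) := by
  refine Real.continuous_exp.comp ((h1 (n + 1) J).1.comp ?_)
  refine continuous_pi fun y => ?_
  rcases y with t | x
  · exact continuous_const
  · exact continuous_apply x

theorem w_bdd : ∃ C, ∀ σ, ‖w J τ σ‖ ≤ C := by
  obtain ⟨C, hC⟩ := (h1 (n + 1) J).2.1
  refine ⟨Real.exp C, fun σ => ?_⟩
  unfold w
  rw [Real.norm_eq_abs, abs_of_pos (Real.exp_pos _)]
  exact Real.exp_le_exp.2 ((le_abs_self _).trans (hC _))

theorem w_int (A : Set (Vert 2 (n + 1) → Ang)) (d : Vert 2 (n + 1) → Ang) :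
    IntegrableOn (fun σ => w J τ (d + σ)) A (refm (n + 1)) := by
  obtain ⟨C, hC⟩ := w_bdd h1 J τ
  refine Integrable.integrableOn ?_
  refine Integrable.of_bound (C := C) ?_ (Filter.Eventually.of_forall fun σ => hC _)
  exact ((w_cont h1 J τ).comp (continuous_const.add continuous_id)).aestronglyMeasurable

theorem gib_real (A : Set (Vert 2 (n + 1) → Ang)) (hA : MeasurableSet A) :
    (gib (n + 1) J τ).real A = (∫ σ in A, w J τ σ ∂(refm (n + 1))) / Zf (n + 1) J τ := by
  have h2 := (h1 (n + 1) J).2.2.2.2.1 τ (A.indicator 1)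
  rw [integral_indicator_one hA] at h2
  rw [h2, ← integral_indicator hA]
  congr 1
  refine integral_congr_ae (Filter.Eventually.of_forall fun σ => ?_)
  by_cases h : σ ∈ A
  · simp [h, w]
  · simp [h]

omit h1 in
theorem shift (A : Set (Vert 2 (n + 1) → Ang)) (hA : MeasurableSet A) (d : Vert 2 (n + 1) → Ang) :
    ∫ σ in A, w J τ σ ∂(refm (n + 1)) =
      ∫ σ in (fun σ => d + σ) ⁻¹' A, w J τ (d + σ) ∂(refm (n + 1)) := by
  have hm : Measurable fun σ : Vert 2 (n + 1) → Ang => d + σ := measurable_const_add d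
  rw [← integral_indicator hA, ← integral_indicator (hm hA),
    ← integral_add_left_eq_self (A.indicator (w J τ)) d]
  rfl

end

theorem main (h1 : S_BAS) (h2 : S_ENE) : S_CSI := by
  intro n J i τ B hB s
  obtain ⟨φ, hφ, hφi, hE⟩ := h2 n i
  have hZ : 0 < Zf (n + 1) J τ := (h1 (n + 1) J).2.2.1.2 τ
  set v : Vert 2 (n + 1) := Sum.inl i with hv
  have hmv : Measurable fun σ : Vert 2 (n + 1) → Ang => σ v := measurable_pi_apply v
  have hA0 : MeasurableSet {σ : Vert 2 (n + 1) → Ang | σ v ∈ B} := hmv hB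
  have hAm : MeasurableSet {σ : Vert 2 (n + 1) → Ang | σ v - (s : Ang) ∈ B} :=
    (hmv.sub_const _) hB
  have hAp : MeasurableSet {σ : Vert 2 (n + 1) → Ang | σ v + (s : Ang) ∈ B} :=
    (hmv.add_const _) hB
  rw [gib_real h1 J τ _ hA0, gib_real h1 J τ _ hAm, gib_real h1 J τ _ hAp,
    shift J τ _ hAm (sh φ s), shift J τ _ hAp (sh φ (-s))]
  have e1 : (fun σ : Vert 2 (n + 1) → Ang => sh φ s + σ) ⁻¹'
      {σ : Vert 2 (n + 1) → Ang | σ v - (s : Ang) ∈ B} = {σ | σ v ∈ B} := by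
    ext σ
    simp only [Set.mem_preimage, Set.mem_ofPred_eq, Pi.add_apply, sh, hφi, mul_one]
    rw [add_sub_cancel_left]
  have e2 : (fun σ : Vert 2 (n + 1) → Ang => sh φ (-s) + σ) ⁻¹'
      {σ : Vert 2 (n + 1) → Ang | σ v + (s : Ang) ∈ B} = {σ | σ v ∈ B} := by
    ext σ
    simp only [Set.mem_preimage, Set.mem_ofPred_eq, Pi.add_apply, sh, hφi, mul_one]
    rw [AddCircle.coe_neg, neg_add_cancel_comm]
  rw [e1, e2]
  set A : Set (Vert 2 (n + 1) → Ang) := {σ | σ v ∈ B} with hAdef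
  set Ip := ∫ σ in A, w J τ (sh φ s + σ) ∂(refm (n + 1)) with hIp
  set Im := ∫ σ in A, w J τ (sh φ (-s) + σ) ∂(refm (n + 1)) with hIm
  set I0 := ∫ σ in A, w J τ σ ∂(refm (n + 1)) with hI0
  have hq : ∀ t : ℝ, 0 ≤ Ip * (t * t) + -(2 * (Real.exp (-(St J * s ^ 2 / 2)) * I0)) * t + Im := by
    intro t
    have h3 : Ip * (t * t) + -(2 * (Real.exp (-(St J * s ^ 2 / 2)) * I0)) * t + Im =
        ∫ σ in A, (w J τ (sh φ s + σ) * (t * t) +
          -(2 * (Real.exp (-(St J * s ^ 2 / 2)) * w J τ σ)) * t +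
          w J τ (sh φ (-s) + σ)) ∂(refm (n + 1)) := by
      have i1 := w_int h1 J τ A (sh φ s)
      have i2 := w_int h1 J τ A (sh φ (-s))
      have i3 := w_int h1 J τ A 0
      simp only [zero_add] at i3
      have i1' : IntegrableOn (fun σ => w J τ (sh φ s + σ) * (t * t)) A
        (refm (n + 1)) := i1.mul_const _
      have i3' : IntegrableOn (fun σ => -(2 * (Real.exp (-(St J * s ^ 2 / 2)) * w J τ σ)) * t)
        A (refm (n + 1)) := ((i3.const_mul _).const_mul _).neg.mul_const _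
      have i13 : IntegrableOn (fun σ => w J τ (sh φ s + σ) * (t * t) +
        -(2 * (Real.exp (-(St J * s ^ 2 / 2)) * w J τ σ)) * t) A (refm (n + 1)) :=
        i1'.add i3'
      rw [integral_add i13 i2, integral_add i1' i3', integral_mul_const,
        integral_mul_const, integral_neg, integral_const_mul, integral_const_mul]
    rw [h3]
    refine integral_nonneg fun σ => ?_
    refine point _ _ _ (St J * s ^ 2 / 2) t ?_
    have h4 := act_ge φ hφ hE J s τ σ
    linarith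
  have hd := discrim_le_zero hq
  unfold discrim at hd
  have h5 : Real.exp (-((∑ e, |(J e).1|) / 4 ^ n * s ^ 2)) =
      Real.exp (-(St J * s ^ 2 / 2)) ^ 2 := by
    rw [← Real.exp_nat_mul]
    unfold St
    congr 1
    push_cast
    ring
  rw [h5, div_pow, div_mul_div_comm, ← mul_div_assoc, ← sq]
  refine div_le_div_of_nonneg_right ?_ (by positivity)
  nlinarith

/-- **CSI**: the spin wave inequality. -/
theorem t_csi (h1 : Pool.Agent.N990.RU.S_BAS) (h2 : Pool.Agent.N990.RU.S_ENE) :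
    Pool.Agent.N990.RU.S_CSI := main h1 h2

end

end Pool.Agent.N51.RU
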